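import Pool.Agent.Helper52.SG.Goals2

set_option autoImplicit false

namespace Pool.Agent.Helper88.SG.FR1

open Subgroup Pool.H83Shunkov Pool.Agent.Helper29.SH Pool.Agent.Helper52.SG
open scoped Pointwise

variable {G : Type} [Group G]

theorem cj_index (K : Subgroup G) (g : G) : (cj K g).index = K.index :=
  Subgroup.index_map_equiv K (MulAut.conj g⁻¹)

theorem cj_map {G' : Type} [Group G'] (f : G →* G') (K : Subgroup G) (g : G) :
    (cj K g).map f = cj (K.map f) (f g) := by
  unfold cj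
  rw [Subgroup.map_map, Subgroup.map_map]
  congr 1
  ext x
  simp

/-- Sylow's theorem (conjugacy) -/
theorem syl_conj [Finite G] {r : ℕ} [Fact r.Prime] (P S : Sylow r G) :
    ∃ g : G, cj (S : Subgroup G) g = P := by
  obtain ⟨g, hg⟩ := MulAction.exists_smul_eq G S P
  refine ⟨g⁻¹, ?_⟩
  have h1 : ((g • S : Sylow r G) : Subgroup G) = P := by rw [hg]
  rw [← h1]
  ext x
  rw [mem_cj, Sylow.coe_subgroup_smul, Subgroup.mem_pointwise_smul_iff_inv_smul_mem,
    MulAut.smul_def, MulAut.conj_inv_apply, inv_inv]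

/-- the normalizer condition in a finite `r`-group -/
theorem norm_grow [Finite G] {r : ℕ} [Fact r.Prime] {P D : Subgroup G} (hP : IsPGroup r P)
    (hle : D ≤ P) (hne : D ≠ P) : ∃ x ∈ P, x ∉ D ∧ x ∈ normalizer (D : Set G) := by
  have hlt : D.subgroupOf P < ⊤ := by
    rw [lt_top_iff_ne_top]
    intro h
    rw [Subgroup.subgroupOf_eq_top] at h
    exact hne (le_antisymm hle h)
  haveI : Group.IsNilpotent P := hP.isNilpotent
  have h1 := Group.normalizerCondition_of_isNilpotent (G := P) (D.subgroupOf P) hlt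
  obtain ⟨x, hx1, hx2⟩ := SetLike.exists_of_lt h1
  refine ⟨x, x.2, fun h => hx2 (Subgroup.mem_subgroupOf.2 h), ?_⟩
  rw [Subgroup.mem_normalizer_iff] at hx1 ⊢
  intro y
  constructor
  · intro hy
    have := (hx1 ⟨y, hle hy⟩).1 (Subgroup.mem_subgroupOf.2 hy)
    exact Subgroup.mem_subgroupOf.1 this
  · intro hy
    have hyP : y ∈ P := by
      have h2 := P.mul_mem (P.mul_mem (P.inv_mem x.2) (hle hy)) x.2
      have e : (x : G)⁻¹ * ((x : G) * y * (x : G)⁻¹) * (x : G) = y := by group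
      rwa [e] at h2
    have := (hx1 ⟨y, hyP⟩).2 (Subgroup.mem_subgroupOf.2 hy)
    exact Subgroup.mem_subgroupOf.1 this

/-- Sylow subgroups of an `r`-nilpotent group are conjugate under an `r'`-element -/
theorem pn_conj (hPNO : S_PNO) [Finite G] {r : ℕ} [Fact r.Prime] {N : Subgroup G} (hN : PN r N)
    (P S : Sylow r N) : ∃ o ∈ N, ¬ r ∣ orderOf o ∧
      cj ((S : Subgroup N).map N.subtype) o = (P : Subgroup N).map N.subtype := by
  have hr : r.Prime := Fact.out
  obtain ⟨O, hO, hO2, hO3⟩ := hPNO G r hr N hN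
  have hOmem : ∀ x : N, x ∈ O.subgroupOf N ↔ ¬ r ∣ orderOf x := by
    intro x
    rw [Subgroup.mem_subgroupOf, hO, Subgroup.orderOf_coe]
    exact ⟨fun h => h.2, fun h => ⟨x.2, h⟩⟩
  haveI hOn : (O.subgroupOf N).Normal := by
    constructor
    intro x hx g
    rw [hOmem] at hx ⊢
    have h1 : orderOf (MulAut.conj g x) = orderOf x :=
      orderOf_injective (MulAut.conj g).toMonoidHom (MulAut.conj g).injective x
    rw [MulAut.conj_apply] at h1
    rwa [h1]
  -- the index of `O` is a power of `r`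
  have hidx : ∃ k : ℕ, (O.subgroupOf N).index = r ^ k := by
    have h1 : IsPGroup r (N ⧸ O.subgroupOf N) := by
      intro y
      obtain ⟨k, rfl⟩ := QuotientGroup.mk_surjective y
      obtain ⟨n, hn⟩ := hO3 k k.2
      refine ⟨n, ?_⟩
      rw [← QuotientGroup.mk_pow, QuotientGroup.eq_one_iff, Subgroup.mem_subgroupOf]
      exact hn
    obtain ⟨k, hk⟩ := IsPGroup.iff_card.1 h1
    exact ⟨k, hk⟩
  have htop : (P : Subgroup N) ⊔ O.subgroupOf N = ⊤ := by
    obtain ⟨k, hk⟩ := hidx
    have h1 : ((P : Subgroup N) ⊔ O.subgroupOf N).index ∣ r ^ k := by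
      rw [← hk]
      exact Subgroup.index_dvd_of_le le_sup_right
    have h2 : ((P : Subgroup N) ⊔ O.subgroupOf N).index ∣ (P : Subgroup N).index :=
      Subgroup.index_dvd_of_le le_sup_left
    rw [← Subgroup.index_eq_one]
    obtain ⟨j, _, hj⟩ := (Nat.dvd_prime_pow hr).1 h1
    rcases Nat.eq_zero_or_pos j with h0 | h0
    · rw [hj, h0, pow_zero]
    · exfalso
      apply P.not_dvd_index
      exact (dvd_pow_self r h0.ne').trans (hj ▸ h2)
  obtain ⟨n, hn⟩ := syl_conj P S
  have hmem : n⁻¹ ∈ (P : Subgroup N) ⊔ O.subgroupOf N := by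
    rw [htop]
    trivial
  have hmem2 : n⁻¹ ∈ ((P : Subgroup N) : Set N) * ((O.subgroupOf N : Subgroup N) : Set N) := by
    rw [← Subgroup.mul_normal]
    exact hmem
  obtain ⟨u, hu, o, ho, huo⟩ := Set.mem_mul.1 hmem2
  have hno : n = o⁻¹ * u⁻¹ := by
    rw [← mul_inv_rev, huo, inv_inv]
  have h3 : cj (S : Subgroup N) o⁻¹ = P := by
    rw [hno, ← cj_mul] at hn
    have h4 : cj (cj (cj (S : Subgroup N) o⁻¹) u⁻¹) u = cj (P : Subgroup N) u := by rw [hn]
    rw [cj_mul, inv_mul_cancel, cj_one] at h4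
    rw [h4]
    exact cj_eq_of_mem hu
  refine ⟨(o⁻¹ : N), (o⁻¹ : N).2, ?_, ?_⟩
  · rw [Subgroup.orderOf_coe]
    exact (hOmem _).1 ((O.subgroupOf N).inv_mem ho)
  · have h5 := cj_map N.subtype (S : Subgroup N) o⁻¹
    rw [h3] at h5
    exact h5.symm

theorem t (hPNO : S_PNO) : S_FR1 := by
  intro G _ _ r hr hyp
  haveI : Fact r.Prime := ⟨hr⟩
  have main : ∀ m : ℕ, ∀ P S : Subgroup G, IsPGroup r P → ¬ r ∣ P.index → IsPGroup r S →
      ¬ r ∣ S.index → Nat.card G - Nat.card (P ⊓ S : Subgroup G) = m →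
      ∃ c ∈ centralizer ((P ⊓ S : Subgroup G) : Set G), cj S c = P := by
    intro m
    induction m using Nat.strong_induction_on with
    | _ m ih =>
      intro P S hP hPi hS hSi hm
      set D : Subgroup G := P ⊓ S with hD
      -- the induction hypothesis
      have ih' : ∀ P' S' : Subgroup G, IsPGroup r P' → ¬ r ∣ P'.index → IsPGroup r S' →
          ¬ r ∣ S'.index → D ≤ P' ⊓ S' → (∃ x ∈ P' ⊓ S', x ∉ D) →
          ∃ c ∈ centralizer ((D : Subgroup G) : Set G), cj S' c = P' := by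
        intro P' S' h1 h2 h3 h4 h5 ⟨x, hx1, hx2⟩
        have hlt : D < P' ⊓ S' := lt_of_le_of_ne h5 (fun h => hx2 (h ▸ hx1))
        have hcard : Nat.card D < Nat.card (P' ⊓ S' : Subgroup G) := by
          have h6 : Nat.card D ≤ Nat.card (P' ⊓ S' : Subgroup G) :=
            Subgroup.card_le_of_le h5
          refine lt_of_le_of_ne h6 (fun h7 => hlt.ne ?_)
          exact Subgroup.eq_of_le_of_card_ge h5 h7.ge
        have hle : Nat.card (P' ⊓ S' : Subgroup G) ≤ Nat.card G := Subgroup.card_le_card_group _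
        obtain ⟨c, hc1, hc2⟩ := ih (Nat.card G - Nat.card (P' ⊓ S' : Subgroup G)) (by omega)
          P' S' h1 h2 h3 h4 rfl
        exact ⟨c, Subgroup.centralizer_le h5 hc1, hc2⟩
      by_cases hDb : D = ⊥
      · obtain ⟨c, hc⟩ := syl_conj (hP.toSylow hPi) (hS.toSylow hSi)
        refine ⟨c, ?_, hc⟩
        rw [hDb]
        intro x hx
        rw [Subgroup.coe_bot, Set.mem_singleton_iff] at hx
        rw [hx, one_mul, mul_one]
      have hDP : IsPGroup r D := hP.to_le inf_le_left
      by_cases hDP1 : D = P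
      · have hPS : P ≤ S := by
          rw [← hDP1]
          exact inf_le_right
        have h1 : S = P := (hP.toSylow hPi).3 hS hPS
        refine ⟨1, Subgroup.one_mem _, ?_⟩
        rw [cj_one, h1]
      by_cases hDS1 : D = S
      · have hSP : S ≤ P := by
          rw [← hDS1]
          exact inf_le_left
        have h1 : P = S := (hS.toSylow hSi).3 hP hSP
        refine ⟨1, Subgroup.one_mem _, ?_⟩
        rw [cj_one, h1]
      obtain ⟨x, hxP, hxD, hxN⟩ := norm_grow hP (inf_le_left : D ≤ P) hDP1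
      obtain ⟨y, hyS, hyD, hyN⟩ := norm_grow hS (inf_le_right : D ≤ S) hDS1
      have hN : PN r (normalizer (D : Set G)) := hyp D hDP hDb
      -- Sylow subgroups of `N`
      have hDN : D ≤ normalizer (D : Set G) := Subgroup.le_normalizer
      have hpP : IsPGroup r (P.subgroupOf (normalizer (D : Set G))) :=
        hP.comap_of_injective _ (Subgroup.subtype_injective _)
      have hpS : IsPGroup r (S.subgroupOf (normalizer (D : Set G))) :=
        hS.comap_of_injective _ (Subgroup.subtype_injective _)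
      obtain ⟨P₁, hP₁⟩ := hpP.exists_le_sylow
      obtain ⟨S₁, hS₁⟩ := hpS.exists_le_sylow
      obtain ⟨o, hoN, hor, ho⟩ := pn_conj hPNO hN P₁ S₁
      obtain ⟨P₂, hP₂⟩ := (P₁.isPGroup'.map (normalizer (D : Set G)).subtype).exists_le_sylow
      obtain ⟨S₂, hS₂⟩ := (S₁.isPGroup'.map (normalizer (D : Set G)).subtype).exists_le_sylow
      have memP₁ : ∀ z ∈ P, z ∈ normalizer (D : Set G) →
          z ∈ (P₁ : Subgroup (normalizer (D : Set G))).map (normalizer (D : Set G)).subtype := by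
        intro z hz1 hz2
        exact ⟨⟨z, hz2⟩, hP₁ (Subgroup.mem_subgroupOf.2 hz1), rfl⟩
      have memS₁ : ∀ z ∈ S, z ∈ normalizer (D : Set G) →
          z ∈ (S₁ : Subgroup (normalizer (D : Set G))).map (normalizer (D : Set G)).subtype := by
        intro z hz1 hz2
        exact ⟨⟨z, hz2⟩, hS₁ (Subgroup.mem_subgroupOf.2 hz1), rfl⟩
      have hDleP : ∀ z ∈ D, z ∈ P := fun z hz => (Subgroup.mem_inf.1 hz).1
      have hDleS : ∀ z ∈ D, z ∈ S := fun z hz => (Subgroup.mem_inf.1 hz).2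
      -- `o` centralises `D`
      have hoD : o ∈ centralizer ((D : Subgroup G) : Set G) := by
        obtain ⟨O, hO, hO2, hO3⟩ := hPNO G r hr _ hN
        intro d hd
        have hd' : d ∈ D := hd
        have hoO : o ∈ O := (hO o).2 ⟨hoN, hor⟩
        have h1 : d⁻¹ * o * d ∈ O := by
          rw [hO]
          refine ⟨(normalizer (D : Set G)).mul_mem ((normalizer (D : Set G)).mul_mem
            ((normalizer (D : Set G)).inv_mem (hDN hd')) hoN) (hDN hd'), ?_⟩
          have h2 : orderOf (MulAut.conj d⁻¹ o) = orderOf o :=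
            orderOf_injective (MulAut.conj d⁻¹).toMonoidHom (MulAut.conj d⁻¹).injective o
          rw [MulAut.conj_apply, inv_inv] at h2
          rwa [h2]
        have h2 : o⁻¹ * (d⁻¹ * o * d) ∈ O := O.mul_mem (O.inv_mem hoO) h1
        have h3 : o⁻¹ * (d⁻¹ * o * d) ∈ D := by
          have h4 : o⁻¹ ∈ normalizer (D : Set G) := (normalizer (D : Set G)).inv_mem hoN
          rw [Subgroup.mem_normalizer_iff] at h4
          have h5 := (h4 d⁻¹).1 (D.inv_mem hd')
          rw [inv_inv] at h5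
          have h6 := D.mul_mem h5 hd'
          have e : o⁻¹ * d⁻¹ * o * d = o⁻¹ * (d⁻¹ * o * d) := by group
          rwa [e] at h6
        have h4 : o⁻¹ * (d⁻¹ * o * d) = 1 := by
          have h5 := ((hO _).1 h2).2
          obtain ⟨k, hk⟩ := (IsPGroup.iff_orderOf.1 hDP) ⟨_, h3⟩
          rw [Subgroup.orderOf_mk] at hk
          rw [← orderOf_eq_one_iff]
          rcases Nat.eq_zero_or_pos k with h0 | h0
          · rw [hk, h0, pow_zero]
          · exfalso
            apply h5
            rw [hk]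
            exact dvd_pow_self r h0.ne'
        have e : d * o = d * (o * (o⁻¹ * (d⁻¹ * o * d))) := by rw [h4, mul_one]
        rw [e]
        group
      -- the three applications of the induction hypothesis
      obtain ⟨c₁, hc₁, hc₁'⟩ := ih' P P₂ hP hPi P₂.isPGroup' P₂.not_dvd_index
        (le_inf inf_le_left (fun z hz => hP₂ (memP₁ z (hDleP z hz) (hDN hz))))
        ⟨x, ⟨hxP, hP₂ (memP₁ x hxP hxN)⟩, hxD⟩
      obtain ⟨c₂, hc₂, hc₂'⟩ := ih' S₂ S S₂.isPGroup' S₂.not_dvd_index hS hSi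
        (le_inf (fun z hz => hS₂ (memS₁ z (hDleS z hz) (hDN hz))) inf_le_right)
        ⟨y, ⟨hS₂ (memS₁ y hyS hyN), hyS⟩, hyD⟩
      have hP₁' : ∀ z ∈ (P₁ : Subgroup (normalizer (D : Set G))).map
          (normalizer (D : Set G)).subtype, z ∈ cj (S₂ : Subgroup G) o := by
        intro z hz
        rw [← ho] at hz
        exact cj_mono hS₂ o hz
      obtain ⟨c₃, hc₃, hc₃'⟩ := ih' P₂ (cj (S₂ : Subgroup G) o) P₂.isPGroup' P₂.not_dvd_index
        (cj_isPGroup S₂.isPGroup' o) (by rw [cj_index]; exact S₂.not_dvd_index)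
        (le_inf (fun z hz => hP₂ (memP₁ z (hDleP z hz) (hDN hz)))
          (fun z hz => hP₁' z (memP₁ z (hDleP z hz) (hDN hz))))
        ⟨x, ⟨hP₂ (memP₁ x hxP hxN), hP₁' x (memP₁ x hxP hxN)⟩, hxD⟩
      refine ⟨c₂ * o * c₃ * c₁, ?_, ?_⟩
      · exact Subgroup.mul_mem _ (Subgroup.mul_mem _ (Subgroup.mul_mem _ hc₂ hoD) hc₃) hc₁
      · rw [← cj_mul, ← cj_mul, ← cj_mul, hc₂', hc₃', hc₁']
  intro P S hP hPi hS hSi
  exact main _ P S hP hPi hS hSi rfl

end Pool.Agent.Helper88.SG.FR1
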