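import Pool.Agent.Helper52.SG.Goals

set_option autoImplicit false

namespace Pool.Agent.Helper88.SG.LGU

open Subgroup Pool.H83Shunkov Pool.Agent.Helper52.SG

theorem pg_of_equiv {A B : Type} [Group A] [Group B] (e : A ≃* B) (h : PG A) : PG B := by
  classical
  obtain ⟨S, hS, hp⟩ := h
  refine ⟨S.image e, ?_, ?_⟩
  · have h1 := congrArg (Subgroup.map e.toMonoidHom) hS
    rw [MonoidHom.map_closure] at h1
    rw [Finset.coe_image]
    have h2 : (⊤ : Subgroup A).map e.toMonoidHom = ⊤ :=
      Subgroup.map_top_of_surjective _ e.surjective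
    rw [h2] at h1
    exact h1
  · intro s hs
    obtain ⟨a, ha, rfl⟩ := Finset.mem_image.1 hs
    exact PairFinite.map e.toMonoidHom e.surjective (hp a ha)

theorem iq_of_equiv {A B : Type} [Group A] [Group B] (e : A ≃* B) (h : IQ B) : IQ A := by
  obtain ⟨R, hR, hinf, hrf⟩ := h
  have hn : (R.comap e.toMonoidHom).Normal := inferInstance
  refine ⟨R.comap e.toMonoidHom, hn, ?_, ?_⟩
  · let f : A ⧸ R.comap e.toMonoidHom →* B ⧸ R :=
      QuotientGroup.map (R.comap e.toMonoidHom) R e.toMonoidHom le_rfl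
    have hf : Function.Surjective f := by
      intro y
      obtain ⟨b, rfl⟩ := QuotientGroup.mk_surjective y
      refine ⟨QuotientGroup.mk (e.symm b), ?_⟩
      show QuotientGroup.mk (e (e.symm b)) = _
      rw [e.apply_symm_apply]
    exact Infinite.of_surjective f hf
  · intro x hx
    obtain ⟨M, h1, h2, h3, h4⟩ := hrf (e x) hx
    refine ⟨M.comap e.toMonoidHom, inferInstance, ?_, Subgroup.comap_mono h3, h4⟩
    constructor
    rw [Subgroup.index_comap_of_surjective M (f := e.toMonoidHom) e.surjective]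
    exact h2.index_ne_zero

theorem finset_le {G : Type} [Group G] {κ : Type} {F : κ → Subgroup G}
    (hd : Directed (· ≤ ·) F) (hc : ∀ g : G, ∃ k, g ∈ F k) (S : Finset G) :
    ∃ k, (S : Set G) ⊆ F k := by
  classical
  induction S using Finset.induction_on with
  | empty =>
    obtain ⟨k, -⟩ := hc 1
    exact ⟨k, by simp⟩
  | insert a S ha ih =>
    obtain ⟨k, hk⟩ := ih
    obtain ⟨l, hl⟩ := hc a
    obtain ⟨m, hm1, hm2⟩ := hd k l
    refine ⟨m, ?_⟩
    rw [Finset.coe_insert]
    exact Set.insert_subset (hm2 hl) (hk.trans hm1)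

theorem t : S_LGU := by
  classical
  intro G _ κ F hd hc hF K hK hinf
  obtain ⟨S, hS, hp⟩ := hK
  obtain ⟨k, hk⟩ := finset_le hd hc (S.image (fun x : K => (x : G)))
  have hKk : K ≤ F k := by
    have h1 := congrArg (Subgroup.map K.subtype) hS
    rw [MonoidHom.map_closure] at h1
    have h2 : (⊤ : Subgroup K).map K.subtype = K := by
      rw [← MonoidHom.range_eq_map, Subgroup.range_subtype]
    rw [h2] at h1
    rw [← h1, closure_le]
    rw [Finset.coe_image] at hk
    exact hk
  have e : K.subgroupOf (F k) ≃* K := Subgroup.subgroupOfEquivOfLe hKk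
  have h1 : PG (K.subgroupOf (F k)) := pg_of_equiv e.symm ⟨S, hS, hp⟩
  have h2 : Infinite (K.subgroupOf (F k)) := Infinite.of_injective _ e.symm.injective
  exact iq_of_equiv e.symm (hF k (K.subgroupOf (F k)) h1 h2)

end Pool.Agent.Helper88.SG.LGU
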